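import Pool.Agent.T2h16.TQ.Cnt
import Pool.Agent.Y703.CT.T1d

/-!
# The density of the good prime twists of every cubic twist
-/

set_option autoImplicit false

open scoped Classical

namespace T2h16.TQ

open Finset Filter Topology Pool.Agent.Y703.CX Q283.TQ
open Pool.Agent.Y703.CT (Cls NoSplit Base)
open Pool.Agent.Y692.QS
open Pool.Agent.Y715.T.Rec (cs nn)
open Pool.Agent.Y715.T.RecG (Pq)
open Pool.Agent.Y333.CX (t_LAM pp_spec)
open Pool.Agent.Y405.CT (pq_star)
open T2h16.TT (Ind indep cs_w_all)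
open Q283.TC (pq_eq_of_dvd)

/-- the primary primes above the prime factors of `D` -/
noncomputable def PD (D q : ℕ) : Finset Ei :=
  insert (-(q : Ei)) ((S1 D).image pp ∪ (S1 D).image fun p => star (pp p))

theorem mem_S1 {D p : ℕ} (h : p ∈ S1 D) : p.Prime ∧ p % 3 = 1 ∧ p ∈ D.primeFactors :=
  ⟨Nat.prime_of_mem_primeFactors (Finset.mem_filter.1 h).1, (Finset.mem_filter.1 h).2,
    (Finset.mem_filter.1 h).1⟩

theorem mem_PD {D q : ℕ} {x : Ei} : x ∈ PD D q ↔ x = -(q : Ei) ∨ (∃ p ∈ S1 D, pp p = x) ∨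
    ∃ p ∈ S1 D, star (pp p) = x := by
  unfold PD
  rw [Finset.mem_insert, Finset.mem_union, Finset.mem_image, Finset.mem_image]

theorem PD_pq {D q : ℕ} (hq : q.Prime) (hq2 : q % 3 = 2) {x : Ei} (h : x ∈ PD D q) : Pq x := by
  rcases mem_PD.1 h with rfl | ⟨p, hp, rfl⟩ | ⟨p, hp, rfl⟩
  · exact pq_neg hq hq2
  · exact (pp_spec (mem_S1 hp).1 (mem_S1 hp).2.1).1
  · exact pq_star (pp_spec (mem_S1 hp).1 (mem_S1 hp).2.1).1

theorem PD_ind {D q : ℕ} (hq : q.Prime) (hq2 : q % 3 = 2) : Ind (PD D q) :=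
  indep _ (fun _ h => (PD_pq hq hq2 h).prime)
    fun _ h _ h' hd => pq_eq_of_dvd (PD_pq hq hq2 h') (PD_pq hq hq2 h) hd

theorem PD_card {D q : ℕ} (hq : q.Prime) : (PD D q).card = 2 * (S1 D).card + 1 := by
  have hn : ∀ p ∈ S1 D, nr (pp p) = p := fun p hp => (pp_spec (mem_S1 hp).1 (mem_S1 hp).2.1).2
  have hn' : ∀ p ∈ S1 D, nr (star (pp p)) = p := fun p hp => by rw [nr_star]; exact hn p hp
  have hi1 : Set.InjOn pp (S1 D : Set ℕ) := by
    intro a ha b hb hab
    have h1 := hn a ha
    rw [hab, hn b hb] at h1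
    exact_mod_cast h1.symm
  have hi2 : Set.InjOn (fun p => star (pp p)) (S1 D : Set ℕ) := by
    intro a ha b hb hab
    have h1 := hn' a ha
    simp only at hab
    rw [hab, hn' b hb] at h1
    exact_mod_cast h1.symm
  have hdisj : Disjoint ((S1 D).image pp) ((S1 D).image fun p => star (pp p)) := by
    rw [Finset.disjoint_left]
    intro x h1 h2
    obtain ⟨a, ha, rfl⟩ := Finset.mem_image.1 h1
    obtain ⟨b, hb, hab⟩ := Finset.mem_image.1 h2
    have h3 := hn' b hb
    rw [hab, hn a ha] at h3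
    have h4 : a = b := by exact_mod_cast h3
    subst h4
    exact star_ne (mem_S1 ha).1 (hn a ha) hab.symm
  have hq' : -(q : Ei) ∉ (S1 D).image pp ∪ (S1 D).image fun p => star (pp p) := by
    intro h
    have hnq : nr (-(q : Ei)) = (q : ℤ) ^ 2 := by rw [nr_neg, nr_nat]
    have key : ∀ p ∈ S1 D, (q : ℤ) ^ 2 ≠ p := by
      intro p hp h1
      have h2 : q ^ 2 = p := by exact_mod_cast h1
      have h3 := (mem_S1 hp).1
      rw [← h2, pow_two] at h3
      exact Nat.not_prime_mul hq.one_lt.ne' hq.one_lt.ne' h3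
    rcases Finset.mem_union.1 h with h | h
    · obtain ⟨a, ha, hab⟩ := Finset.mem_image.1 h
      exact key a ha (by rw [← hnq, ← hab, hn a ha])
    · obtain ⟨a, ha, hab⟩ := Finset.mem_image.1 h
      exact key a ha (by rw [← hnq, ← hab, hn' a ha])
  unfold PD
  rw [Finset.card_insert_of_notMem hq', Finset.card_union_of_disjoint hdisj,
    Finset.card_image_of_injOn hi1, Finset.card_image_of_injOn hi2]
  ring

/-- the pair of vectors of a vector of symbols -/
noncomputable def Phi (D q e : ℕ) (x : PD D q → ZMod 3) :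
    (S1 D → ZMod 3) × (D.primeFactors → ZMod 3) :=
  (fun p => e * (ext0 x (pp p) - ext0 x (star (pp p))),
    fun r => if (r : ℕ) % 3 = 1 then ext0 x (pp r) + ext0 x (star (pp r)) else ext0 x (-(r : Ei)))

section
variable {D : ℕ} (hD : Bs D) {q : ℕ} (hqm : q ∈ D.primeFactors) (hq2 : q % 3 = 2)
  (hins : D.primeFactors = insert q (S1 D)) (hqn : q ∉ S1 D) {e : ℕ} (he : e = 1 ∨ e = 2)

include hqm hq2 hins hqn he in
theorem Phi_bij : Function.Bijective (Phi D q e) := by
  have hq := Nat.prime_of_mem_primeFactors hqm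
  rw [Fintype.bijective_iff_injective_and_card]
  constructor
  · intro x x' h
    have h1 : ∀ p ∈ S1 D, ext0 x (pp p) = ext0 x' (pp p) ∧
        ext0 x (star (pp p)) = ext0 x' (star (pp p)) := by
      intro p hp
      have h2 := congrFun (congrArg Prod.fst h) ⟨p, hp⟩
      have h3 := congrFun (congrArg Prod.snd h) ⟨p, (mem_S1 hp).2.2⟩
      unfold Phi at h2 h3
      simp only at h2 h3
      rw [if_pos (mem_S1 hp).2.1, if_pos (mem_S1 hp).2.1] at h3
      revert h2 h3
      generalize ext0 x (pp p) = u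
      generalize ext0 x (star (pp p)) = v
      generalize ext0 x' (pp p) = u'
      generalize ext0 x' (star (pp p)) = v'
      rcases he with rfl | rfl
      · revert u v u' v'
        decide
      · revert u v u' v'
        decide
    have h2 : ext0 x (-(q : Ei)) = ext0 x' (-(q : Ei)) := by
      have h3 := congrFun (congrArg Prod.snd h) ⟨q, hqm⟩
      unfold Phi at h3
      simp only at h3
      rw [if_neg (by omega), if_neg (by omega)] at h3
      exact h3
    funext y
    have h3 : ext0 x (y : Ei) = ext0 x' (y : Ei) := by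
      rcases mem_PD.1 y.2 with h | ⟨p, hp, h⟩ | ⟨p, hp, h⟩
      · rw [h]
        exact h2
      · rw [← h]
        exact (h1 p hp).1
      · rw [← h]
        exact (h1 p hp).2
    rw [ext0_of x y.2, ext0_of x' y.2] at h3
    exact h3
  · have e1 : Fintype.card (PD D q → ZMod 3) = 3 ^ (2 * (S1 D).card + 1) := by
      rw [Fintype.card_fun, ZMod.card, Fintype.card_coe, PD_card hq]
    have e2 : Fintype.card ((S1 D → ZMod 3) × (D.primeFactors → ZMod 3)) =
        3 ^ (2 * (S1 D).card + 1) := by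
      rw [Fintype.card_prod, Fintype.card_fun, Fintype.card_fun, ZMod.card, Fintype.card_coe,
        Fintype.card_coe, ← pow_add]
      congr 1
      have : D.primeFactors.card = (S1 D).card + 1 := by
        conv_lhs => rw [hins]
        rw [Finset.card_insert_of_notMem hqn]
      omega
    rw [e1, e2]

end

/-- **The density.** -/
theorem main {D : ℕ} (hD : Bs D) {e : ℕ} (he : e = 1 ∨ e = 2) {r : ℕ}
    (hr : r = 1 ∨ r = 4 ∨ r = 7) (S : ℕ → Prop)
    (hS : ∀ l : ℕ, l.Prime → l % 3 = 1 → ¬ l ∣ D → (S l ↔ l % 9 = r ∧ NoSplit (D * l ^ e))) :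
    Tendsto (fun X : ℕ => (cnt S X : ℝ) / (cnt (fun l => l % 9 = r) X : ℝ)) atTop
      (𝓝 (cD D)) := by
  obtain ⟨q, hqm, hq2, hins, hqn⟩ := exists_q hD
  have hq := Nat.prime_of_mem_primeFactors hqm
  have he0 : e ≠ 0 := by omega
  have he2 : e ≤ 2 := by omega
  set c : ZMod 3 := (((r - 1) / 3 : ℕ) : ZMod 3) with hc
  have hI := PD_ind (D := D) hq hq2
  have hndvd : ∀ l : ℕ, l.Prime → l % 3 = 1 → ∀ π, Pq π → nr π = l →
      (∀ q' ∈ PD D q, ¬ π ∣ q') → ¬ l ∣ D := by
    intro l hl hl1 π hπ hn hd hlD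
    have hm : l ∈ S1 D := Finset.mem_filter.2
      ⟨Nat.mem_primeFactors.2 ⟨hl, hlD, hD.ne_zero⟩, hl1⟩
    obtain ⟨h1, h2⟩ := pp_spec hl hl1
    rcases eq_or_star hπ hn hl h1 h2 with h | h
    · exact hd (pp l) (mem_PD.2 (Or.inr (Or.inl ⟨l, hm, rfl⟩))) (by rw [h])
    · exact hd (star (pp l)) (mem_PD.2 (Or.inr (Or.inr ⟨l, hm, rfl⟩))) (by rw [h, star_star])
  have hcl : ∀ l : ℕ, l % 3 = 1 → ∀ π, Pq π → nr π = l → (l % 9 = r ↔ cs π w = c) := by
    intro l hl1 π hπ hn
    rw [cs_w_all hπ, hc, ZMod.natCast_eq_natCast_iff']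
    have h1 : nn π = (l - 1) / 3 := by
      unfold nn
      rw [hn, Int.natAbs_natCast]
    rw [h1]
    rcases hr with rfl | rfl | rfl <;> omega
  have h1 := prop2 hI (fun x => NP D (Phi D q e x.1) ∧ x.2 = c) (fun x => x.2 = c) S
    (fun l => l % 9 = r) (by
      intro l hl hl1 π hπ hn hd
      have hlD := hndvd l hl hl1 π hπ hn hd
      rw [hS l hl hl1 hlD, hcl l hl1 π hπ hn, and_comm, crit2 hD hl hl1 hlD he0 he2 hπ hn]
      refine and_congr_left fun _ => ?_
      have ha : ∀ p ∈ D.primeFactors, p % 3 = 1 →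
          (e : ZMod 3) * aa π p = ext0 (Phi D q e fun q' : PD D q => cs π q').1 p := by
        intro p hp hp1
        have hm : p ∈ S1 D := Finset.mem_filter.2 ⟨hp, hp1⟩
        rw [ext0_of _ hm]
        unfold Phi aa
        simp only
        rw [ext0_of _ (mem_PD.2 (Or.inr (Or.inl ⟨p, hm, rfl⟩))),
          ext0_of _ (mem_PD.2 (Or.inr (Or.inr ⟨p, hm, rfl⟩)))]
      have hb : ∀ p ∈ D.primeFactors, bb π p =
          ext0 (Phi D q e fun q' : PD D q => cs π q').2 p := by
        intro p hp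
        rw [ext0_of _ hp]
        unfold Phi bb
        simp only
        by_cases hp1 : p % 3 = 1
        · have hm : p ∈ S1 D := Finset.mem_filter.2 ⟨hp, hp1⟩
          rw [if_pos hp1, if_pos hp1, ext0_of _ (mem_PD.2 (Or.inr (Or.inl ⟨p, hm, rfl⟩))),
            ext0_of _ (mem_PD.2 (Or.inr (Or.inr ⟨p, hm, rfl⟩)))]
        · rw [if_neg hp1, if_neg hp1]
          have hpq : p = q := by
            have h2 := hp
            rw [hins] at h2
            rcases Finset.mem_insert.1 h2 with h | h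
            · exact h
            · exact absurd (mem_S1 h).2.1 hp1
          subst hpq
          rw [ext0_of _ (mem_PD.2 (Or.inl rfl))]
      exact ⟨fun h => h.congr ha hb, fun h => h.congr (fun p hp hp1 => (ha p hp hp1).symm)
        fun p hp => (hb p hp).symm⟩)
    (fun l _ hl1 π hπ hn _ => hcl l hl1 π hπ hn) (by
      have hne : Nonempty {x : (PD D q → ZMod 3) × ZMod 3 // x.2 = c} := ⟨⟨(0, c), rfl⟩⟩
      exact Nat.card_pos.ne')
  have hc1 : Nat.card {x : (PD D q → ZMod 3) × ZMod 3 // NP D (Phi D q e x.1) ∧ x.2 = c} =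
      Nat.card {x : (S1 D → ZMod 3) × (D.primeFactors → ZMod 3) // NP D x} := by
    refine Nat.card_congr (Equiv.trans
      { toFun := fun x => (⟨x.1.1, x.2.1⟩ : {y : PD D q → ZMod 3 // NP D (Phi D q e y)})
        invFun := fun y => ⟨(y.1, c), y.2, rfl⟩
        left_inv := fun x => by
          apply Subtype.ext
          exact Prod.ext rfl x.2.2.symm
        right_inv := fun y => rfl }
      ((Equiv.ofBijective _ (Phi_bij hqm hq2 hins hqn he)).subtypeEquiv fun y => Iff.rfl))
  have hc2 : Nat.card {x : (PD D q → ZMod 3) × ZMod 3 // x.2 = c} = 3 ^ (2 * (S1 D).card + 1) := by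
    have e1 : Nat.card {x : (PD D q → ZMod 3) × ZMod 3 // x.2 = c} =
        Nat.card (PD D q → ZMod 3) := Nat.card_congr
      { toFun := fun x => x.1.1
        invFun := fun y => ⟨(y, c), rfl⟩
        left_inv := fun x => by
          apply Subtype.ext
          exact Prod.ext rfl x.2.symm
        right_inv := fun y => rfl }
    rw [e1, Nat.card_fun, Nat.card_zmod, Nat.card_eq_fintype_card, Fintype.card_coe, PD_card hq]
  rw [hc1, hc2] at h1
  unfold cD
  have e3 : ((3 ^ (2 * (S1 D).card + 1) : ℕ) : ℝ) = 3 ^ (2 * (S1 D).card + 1) := by push_cast; rfl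
  rw [e3] at h1
  exact h1

end T2h16.TQ
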