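import Pool.Agent.T2h16.TT.Dens
import Pool.Agent.T2h16.TT.Sup
import Pool.Agent.Q283.TQ.Sym

/-!
# The joint law of the cubic residue symbols at the rational primes
-/

set_option autoImplicit false
set_option linter.unusedSectionVars false
set_option linter.style.haveILetI false

namespace T2h16.TQ

open NumberField Filter Topology Finset Pool.Agent.W401.Cheb
open Pool.Agent.Y692.QS (Ei w nr hom hom_apply hom_w w_cube mul_star nr_nonneg nr_zero_iff nr_mul
  nr_star star_re star_im)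
open Pool.Agent.Y715.T.Rec (cs nn)
open Pool.Agent.Y715.T.RecG (Pq)
open Q283.TC (NT NT_split FT dens_one exists_above ar ar_of HH mem_HH frob_cube pq_eq_of_dvd
  hom_inj0 mod_three three_ne Dat frob_z fin_nr NT_tendsto)
open T2h16.TT (Ind Psi surj s0 DatC exists_dat w_unit' cs_w_all)

section
variable {L : Type} [Field L] [NumberField L] [IsGalois ℚ L] {P : Finset Ei} (E : Dat L P)
  (hI : Ind P)

theorem ratio2 (Q : (P → ZMod 3) × ZMod 3 → Prop) :
    (Nat.card {g : HH E.Z // Q (Multiplicative.toAdd (Psi E hI g))} : ℝ) /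
      (Nat.card (HH E.Z) : ℝ) =
      (Nat.card {x : (P → ZMod 3) × ZMod 3 // Q x} : ℝ) / 3 ^ (P.card + 1) := by
  have hsur := surj E hI
  have h1 := Pool.Agent.W401.Cheb.card_fib (Psi E hI) (fun b => Q (Multiplicative.toAdd b))
    (fun b _ => hsur b)
  have h2 := Pool.Agent.W401.Cheb.card_fib (Psi E hI) (fun _ => True) (fun b _ => hsur b)
  have h3 : Nat.card {a : HH E.Z // True} = Nat.card (HH E.Z) :=
    Nat.card_congr (Equiv.subtypeUnivEquiv fun _ => trivial)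
  have h4 : Nat.card {b : Multiplicative ((P → ZMod 3) × ZMod 3) // True} =
      3 ^ (P.card + 1) := by
    have : Nat.card ((P → ZMod 3) × ZMod 3) = 3 ^ (P.card + 1) := by
      rw [Nat.card_prod, Nat.card_fun]
      simp [pow_succ]
    rw [← this]
    exact Nat.card_congr (Equiv.subtypeUnivEquiv fun _ => trivial)
  have h5 : Nat.card {b : Multiplicative ((P → ZMod 3) × ZMod 3) // Q (Multiplicative.toAdd b)} =
      Nat.card {x : (P → ZMod 3) × ZMod 3 // Q x} := rfl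
  rw [h3, h4] at h2
  rw [h5] at h1
  rw [h1, h2]
  have hk : 0 < Nat.card (Psi E hI).ker := Nat.card_pos
  push_cast
  have hk' : (Nat.card (Psi E hI).ker : ℝ) ≠ 0 := by positivity
  field_simp

/-- the Frobenius set of a predicate on the symbols -/
def CC2 (Q : (P → ZMod 3) × ZMod 3 → Prop) : Set Gal(L/ℚ) :=
  {g | ∃ h : g ∈ HH E.Z, Q (Multiplicative.toAdd (Psi E hI ⟨g, h⟩))}

include hI in
theorem dens2 (Q : (P → ZMod 3) × ZMod 3 → Prop) (T : Ei → Prop)
    (hT : ∀ p : ℕ, p.Prime → p ≠ 3 → ∀ π, Pq π → nr π = p → (∀ q ∈ P, ¬ π ∣ q) →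
      (T π ↔ Q (fun q : P => cs π q, cs π w))) :
    Tendsto (fun X : ℕ => (NT T X : ℝ) / (Nat.primeCounting X : ℝ)) atTop
      (𝓝 (2 * (Nat.card (HH E.Z) : ℝ) / (Nat.card Gal(L/ℚ) : ℝ) *
        ((Nat.card {x : (P → ZMod 3) × ZMod 3 // Q x} : ℝ) / 3 ^ (P.card + 1)))) := by
  apply NT_tendsto
  have hD0 : 0 < 3 * ∏ q ∈ P, (nr q).natAbs := by
    have : 0 < ∏ q ∈ P, (nr q).natAbs := by
      apply Finset.prod_pos
      intro q hq
      have h1 : nr q ≠ 0 := fun h => hI.n0 q hq (nr_zero_iff.1 h)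
      omega
    omega
  have h1 := dens_one E.hZ (CC2 E hI Q) T (3 * ∏ q ∈ P, (nr q).natAbs) hD0 (by
    intro p hp hpD φ g hφ
    have h3 : p ≠ 3 := by
      rintro rfl
      exact hpD (dvd_mul_right _ _)
    have hpP : ∀ q ∈ P, ¬ p ∣ (nr q).natAbs := by
      intro q hq hd
      exact hpD ((hd.trans (Finset.dvd_prod_of_mem
        (fun q : Ei => (nr q).natAbs) hq)).mul_left _)
    have hdiv : ∀ π : Ei, nr π = p → ∀ q ∈ P, ¬ π ∣ q := by
      rintro π hn q hq ⟨c, rfl⟩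
      apply hpP _ hq
      rw [nr_mul, hn, Int.natAbs_mul, Int.natAbs_natCast]
      exact dvd_mul_right _ _
    have key : ∀ (π : Ei), Pq π → nr π = p → φ (hom E.Z E.hZ π) = 0 → ∀ hg : g ∈ HH E.Z,
        (T π ↔ Q (Multiplicative.toAdd (Psi E hI ⟨g, hg⟩))) := by
      intro π h4 h5 h6 hg
      rw [hT p hp.out h3 π h4 h5 (hdiv π h5)]
      have e1 : (fun q : P => cs π q) = fun q : P => ar E.Z g (E.s (q : Ei)) := by
        funext q
        symm
        apply ar_of E.hZ (s0 E hI q.2)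
        exact frob_cube E.hZ hφ h3 hg h4.prime h5 h6 (E.hs q q.2) (hdiv π h5 q q.2)
      have e2 : cs π w = ar E.Z g (E.s w) := by
        symm
        apply ar_of E.hZ E.w0
        refine frob_cube E.hZ hφ h3 hg h4.prime h5 h6 E.hw ?_
        intro hd
        exact h4.prime.not_isUnit (isUnit_of_dvd_unit hd w_unit')
      rw [e1, e2]
      exact Iff.rfl
    constructor
    · rintro ⟨hg, hQ⟩
      have hp3 : p % 3 = 1 := (frob_z E.hZ hφ h3).1 hg
      obtain ⟨π, h4, h5, h6⟩ : ∃ π, Pq π ∧ nr π = p ∧ φ (hom E.Z E.hZ π) = 0 :=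
        exists_above E.hZ h3 hp3
      exact ⟨π, h4, h5, h6, (key π h4 h5 h6 hg).2 hQ⟩
    · rintro ⟨π, h4, h5, h6, h7⟩
      have hg : g ∈ HH E.Z := by
        rw [mem_HH, frob_z E.hZ hφ h3]
        exact mod_three h5 hp.out h3
      exact ⟨hg, (key π h4 h5 h6 hg).1 h7⟩)
  have h2 : (Nat.card (CC2 E hI Q) : ℝ) =
      (Nat.card {g : HH E.Z // Q (Multiplicative.toAdd (Psi E hI g))} : ℝ) := by
    congr 1
    refine Nat.card_congr
      { toFun := fun x => ⟨⟨x.1, x.2.1⟩, x.2.2⟩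
        invFun := fun x => ⟨x.1.1, x.1.2, x.2⟩
        left_inv := fun x => rfl
        right_inv := fun x => rfl }
  have h3 := ratio2 E hI Q
  have hHpos : (0 : ℝ) < Nat.card (HH E.Z) := by
    have := Nat.card_pos (α := HH E.Z)
    exact_mod_cast this
  have h4 : (Nat.card {g : HH E.Z // Q (Multiplicative.toAdd (Psi E hI g))} : ℝ) =
      (Nat.card {x : (P → ZMod 3) × ZMod 3 // Q x} : ℝ) / 3 ^ (P.card + 1) *
        (Nat.card (HH E.Z) : ℝ) := by
    rw [← h3]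
    field_simp
  rw [h2, h4] at h1
  convert h1 using 2
  ring

end

/-! ### Rational primes -/

/-- the number of the primes up to `X` that are `1` modulo `3` and have the property `S` -/
noncomputable def cnt (S : ℕ → Prop) (X : ℕ) : ℕ :=
  {l : ℕ | l.Prime ∧ l % 3 = 1 ∧ S l ∧ l ≤ X}.ncard

/-- the property of the norm -/
def TS (S : ℕ → Prop) (π : Ei) : Prop := (nr π).natAbs.Prime ∧ S (nr π).natAbs

theorem star_ne {π : Ei} {p : ℕ} (hp : p.Prime) (hn : nr π = p) : π ≠ star π := by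
  intro h
  have h1 := congrArg QuadraticAlgebra.im h
  rw [star_im] at h1
  have h2 : π.im = 0 := by omega
  unfold nr at hn
  rw [h2] at hn
  have h3 : (p : ℤ) = π.re * π.re := by rw [← hn]; ring
  have h4 : p = π.re.natAbs * π.re.natAbs := by
    have : ((π.re.natAbs * π.re.natAbs : ℕ) : ℤ) = π.re * π.re := by
      push_cast
      exact abs_mul_abs_self _
    exact_mod_cast h3.trans this.symm
  have h5 : π.re.natAbs ≠ 1 := by
    intro h6
    rw [h6] at h4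
    exact hp.one_lt.ne' h4
  exact (Nat.not_prime_mul h5 h5) (h4 ▸ hp)

open scoped Classical in
theorem ft_eq (S : ℕ → Prop) {p : ℕ} (hp : p.Prime) :
    FT (TS S) p = if p % 3 = 1 ∧ S p then 2 else 0 := by
  by_cases h : p % 3 = 1 ∧ S p
  · rw [if_pos h]
    obtain ⟨h1, h2⟩ := Pool.Agent.Y333.CX.pp_spec hp h.1
    set π := Pool.Agent.Y703.CX.pp p with hπ
    have hset : {ρ : Ei | Pq ρ ∧ nr ρ = p ∧ TS S ρ} = {π, star π} := by
      ext ρ
      rw [Set.mem_ofPred_eq, Set.mem_insert_iff, Set.mem_singleton_iff]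
      have hts : ∀ ρ : Ei, nr ρ = p → TS S ρ := by
        intro ρ hρ
        unfold TS
        rw [hρ, Int.natAbs_natCast]
        exact ⟨hp, h.2⟩
      constructor
      · rintro ⟨a, b, -⟩
        exact Q283.TQ.eq_or_star h1 h2 hp a b
      · rintro (rfl | rfl)
        · exact ⟨h1, h2, hts _ h2⟩
        · have h3 : nr (star π) = p := by rw [nr_star]; exact h2
          exact ⟨Pool.Agent.Y405.CT.pq_star h1, h3, hts _ h3⟩
    have e : FT (TS S) p = {ρ : Ei | Pq ρ ∧ nr ρ = p ∧ TS S ρ}.ncard := rfl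
    rw [e, hset, Set.ncard_pair (star_ne hp h2)]
  · rw [if_neg h]
    have hemp : IsEmpty {ρ : Ei // Pq ρ ∧ nr ρ = p ∧ TS S ρ} := by
      refine ⟨?_⟩
      rintro ⟨ρ, a, b, c⟩
      apply h
      have h3 : p ≠ 3 := by
        rintro rfl
        apply a.norm
        refine ⟨star ρ, ?_⟩
        rw [mul_star, b]
        norm_num
      refine ⟨mod_three b hp h3, ?_⟩
      have := c.2
      rwa [b, Int.natAbs_natCast] at this
    exact Nat.card_of_isEmpty

theorem nt_eq (S : ℕ → Prop) (X : ℕ) : NT (TS S) X = 2 * cnt S X := by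
  classical
  rw [NT_split]
  have h1 : {π : Ei | Pq π ∧ nr π ≤ X ∧ TS S π ∧ ¬ (nr π).natAbs.Prime} = ∅ := by
    ext π
    rw [Set.mem_ofPred_eq, Set.mem_empty_iff_false, iff_false]
    rintro ⟨-, -, h, h'⟩
    exact h' h.1
  rw [h1, Set.ncard_empty, add_zero]
  have h2 : ∑ p ∈ pr X, FT (TS S) p = ∑ p ∈ pr X, if p % 3 = 1 ∧ S p then 2 else 0 :=
    Finset.sum_congr rfl fun p hp => ft_eq S (mem_pr.1 hp).2
  rw [h2, ← Finset.sum_filter, Finset.sum_const, smul_eq_mul, mul_comm]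
  congr 1
  unfold cnt
  rw [← Set.ncard_coe_finset]
  congr 1
  ext l
  rw [Finset.mem_coe, Finset.mem_filter, mem_pr]
  constructor
  · rintro ⟨⟨a, b⟩, c, d⟩
    exact ⟨b, c, d, a⟩
  · rintro ⟨b, c, d, a⟩
    exact ⟨⟨a, b⟩, c, d⟩

/-- **The proportion of the primes with given symbols.** -/
theorem prop2 {P : Finset Ei} (hI : Ind P) (Q Q₀ : (P → ZMod 3) × ZMod 3 → Prop)
    (S S₀ : ℕ → Prop)
    (hS : ∀ l : ℕ, l.Prime → l % 3 = 1 → ∀ π, Pq π → nr π = l → (∀ q ∈ P, ¬ π ∣ q) →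
      (S l ↔ Q (fun q : P => cs π q, cs π w)))
    (hS₀ : ∀ l : ℕ, l.Prime → l % 3 = 1 → ∀ π, Pq π → nr π = l → (∀ q ∈ P, ¬ π ∣ q) →
      (S₀ l ↔ Q₀ (fun q : P => cs π q, cs π w)))
    (h0 : Nat.card {x : (P → ZMod 3) × ZMod 3 // Q₀ x} ≠ 0) :
    Tendsto (fun X : ℕ => (cnt S X : ℝ) / (cnt S₀ X : ℝ)) atTop
      (𝓝 ((Nat.card {x : (P → ZMod 3) × ZMod 3 // Q x} : ℝ) /
        (Nat.card {x : (P → ZMod 3) × ZMod 3 // Q₀ x} : ℝ))) := by
  obtain ⟨L, hL, hN, hG, ⟨D⟩⟩ := exists_dat P hI.w0 (k := 1) le_rfl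
  have key : ∀ (Q : (P → ZMod 3) × ZMod 3 → Prop) (S : ℕ → Prop),
      (∀ l : ℕ, l.Prime → l % 3 = 1 → ∀ π, Pq π → nr π = l → (∀ q ∈ P, ¬ π ∣ q) →
      (S l ↔ Q (fun q : P => cs π q, cs π w))) →
      ∀ p : ℕ, p.Prime → p ≠ 3 → ∀ π, Pq π → nr π = p → (∀ q ∈ P, ¬ π ∣ q) →
      (TS S π ↔ Q (fun q : P => cs π q, cs π w)) := by
    intro Q S hS p hp hp3 π hπ hn hd
    rw [← hS p hp (mod_three hn hp hp3) π hπ hn hd]
    unfold TS
    rw [hn, Int.natAbs_natCast, and_iff_right hp]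
  have h1 := dens2 D.toDat hI Q (TS S) (key Q S hS)
  have h2 := dens2 D.toDat hI Q₀ (TS S₀) (key Q₀ S₀ hS₀)
  have hK : (0 : ℝ) < Nat.card (HH D.Z) := by
    have := Nat.card_pos (α := HH D.Z)
    exact_mod_cast this
  have hG : (0 : ℝ) < Nat.card Gal(L/ℚ) := by
    have := Nat.card_pos (α := Gal(L/ℚ))
    exact_mod_cast this
  have h00 : (0 : ℝ) < Nat.card {x : (P → ZMod 3) × ZMod 3 // Q₀ x} := by
    exact_mod_cast Nat.pos_of_ne_zero h0
  have hpos : (0 : ℝ) < 2 * (Nat.card (HH D.Z) : ℝ) / (Nat.card Gal(L/ℚ) : ℝ) *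
      ((Nat.card {x : (P → ZMod 3) × ZMod 3 // Q₀ x} : ℝ) / 3 ^ (P.card + 1)) := by positivity
  have h6 := h1.div h2 hpos.ne'
  have h7 : 2 * (Nat.card (HH D.Z) : ℝ) / (Nat.card Gal(L/ℚ) : ℝ) *
      ((Nat.card {x : (P → ZMod 3) × ZMod 3 // Q x} : ℝ) / 3 ^ (P.card + 1)) /
        (2 * (Nat.card (HH D.Z) : ℝ) / (Nat.card Gal(L/ℚ) : ℝ) *
      ((Nat.card {x : (P → ZMod 3) × ZMod 3 // Q₀ x} : ℝ) / 3 ^ (P.card + 1))) =
      (Nat.card {x : (P → ZMod 3) × ZMod 3 // Q x} : ℝ) /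
        (Nat.card {x : (P → ZMod 3) × ZMod 3 // Q₀ x} : ℝ) := by
    field_simp
  rw [h7] at h6
  refine h6.congr' ?_
  filter_upwards [eventually_ge_atTop 2] with X hX
  have hpc : (Nat.primeCounting X : ℝ) ≠ 0 := by
    have : 0 < Nat.primeCounting X := by
      have h := Nat.monotone_primeCounting hX
      have h2 : Nat.primeCounting 2 = 1 := by decide
      omega
    positivity
  simp only [Pi.div_apply]
  rw [div_div_div_cancel_right₀ hpc, nt_eq, nt_eq]
  push_cast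
  rw [mul_div_mul_left _ _ (by norm_num : (2 : ℝ) ≠ 0)]

end T2h16.TQ
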