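import Pool.Agent.T2h16.TQ.Mat2
import Pool.Agent.T2h16.TQ.Law
import Pool.Agent.T2h16.TT.Fin

/-!
# The number of the symbol vectors for which the system has only the zero solution
-/

set_option autoImplicit false

open scoped Classical

namespace T2h16.TQ

open Finset Pool.Agent.Y703.CX Q283.TQ
open Pool.Agent.Y703.CT (Cls NoSplit Base)
open Pool.Agent.Y692.QS
open Pool.Agent.Y715.T.Rec (cs)
open Pool.Agent.Y715.T.RecG (Pq)
open Pool.Agent.Y333.CX (t_LAM pp_spec)
open Pool.Agent.Y405.CT (pq_star)

/-- the prime factors that are `1` modulo `3` -/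
def S1 (D : ℕ) : Finset ℕ := D.primeFactors.filter fun p => p % 3 = 1

/-- extension by zero -/
noncomputable def ext0 {α : Type} {S : Finset α} (x : S → ZMod 3) (y : α) : ZMod 3 :=
  if h : y ∈ S then x ⟨y, h⟩ else 0

theorem ext0_of {α : Type} {S : Finset α} (x : S → ZMod 3) {y : α} (h : y ∈ S) :
    ext0 x y = x ⟨y, h⟩ := dif_pos h

/-- the pairs of vectors for which the system of `D` has only the zero solution -/
def NP (D : ℕ) (x : (S1 D → ZMod 3) × (D.primeFactors → ZMod 3)) : Prop :=
  NSg D (ext0 x.1) (ext0 x.2)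

/-- the proportion of these pairs -/
noncomputable def cD (D : ℕ) : ℝ :=
  (Nat.card {x : (S1 D → ZMod 3) × (D.primeFactors → ZMod 3) // NP D x} : ℝ) /
    3 ^ (2 * (S1 D).card + 1)

theorem card_diag_any {ι : Type} [Fintype ι] [DecidableEq ι] (A : Matrix ι ι (ZMod 3)) :
    2 ^ Fintype.card ι ≤ Nat.card {u : ι → ZMod 3 // (A + Matrix.diagonal u).det ≠ 0} := by
  have h := T2h16.TT.card_diag (Fintype.card ι)
    (A.submatrix (Fintype.equivFin ι).symm (Fintype.equivFin ι).symm)
  refine h.trans (le_of_eq ?_)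
  refine Nat.card_congr ((Equiv.arrowCongr (Fintype.equivFin ι).symm (Equiv.refl _)).subtypeEquiv
    fun u => ?_)
  have e : (A.submatrix (Fintype.equivFin ι).symm (Fintype.equivFin ι).symm +
      Matrix.diagonal u) = (A + Matrix.diagonal
        ((Equiv.arrowCongr (Fintype.equivFin ι).symm (Equiv.refl _)) u)).submatrix
          (Fintype.equivFin ι).symm (Fintype.equivFin ι).symm := by
    ext i j
    simp only [Matrix.add_apply, Matrix.submatrix_apply, Matrix.diagonal_apply,
      Equiv.arrowCongr_apply, Equiv.refl_apply, Function.comp, Equiv.symm_symm,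
      Equiv.apply_symm_apply, EmbeddingLike.apply_eq_iff_eq]
  rw [e, Matrix.det_submatrix_equiv_self]

section
variable {D : ℕ} (hD : Bs D)

include hD in
/-- the prime that is `2` modulo `3` -/
theorem exists_q : ∃ q : ℕ, q ∈ D.primeFactors ∧ q % 3 = 2 ∧
    D.primeFactors = insert q (S1 D) ∧ q ∉ S1 D := by
  obtain ⟨-, q, hq, h2, hqD, hall⟩ := id hD
  have hqm : q ∈ D.primeFactors := Nat.mem_primeFactors.2 ⟨hq, hqD, hD.ne_zero⟩
  have hqn : q ∉ S1 D := by
    unfold S1
    rw [Finset.mem_filter]
    omega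
  refine ⟨q, hqm, h2, ?_, hqn⟩
  ext p
  rw [Finset.mem_insert]
  constructor
  · intro hp
    by_cases hpq : p = q
    · exact Or.inl hpq
    · right
      unfold S1
      rw [Finset.mem_filter]
      exact ⟨hp, hall p (Nat.prime_of_mem_primeFactors hp) (Nat.dvd_of_mem_primeFactors hp) hpq⟩
  · rintro (rfl | h)
    · exact hqm
    · exact (Finset.mem_filter.1 h).1

include hD in
/-- the lower bound -/
theorem cD_low : (2 / 3 : ℝ) ^ ((S1 D).card + 1) ≤ cD D := by
  obtain ⟨q, hqm, hq2, hins, hqn⟩ := exists_q hD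
  -- the matrix
  set A : Matrix (S1 D) (S1 D) (ZMod 3) := Matrix.of fun p r =>
    if p = r then -∑ r' ∈ D.primeFactors.erase p, mu D r' * lam p r' else mu D r * lam p r with hA
  have hmq : mu D q ≠ 0 := hD.mu_ne q hqm
  have hmq2 : mu D q * mu D q = 1 := (by decide : ∀ x : ZMod 3, x ≠ 0 → x * x = 1) _ hmq
  -- the sum over the prime factors of the system
  have hsys : ∀ (g : ℕ → ZMod 3) (p : S1 D),
      ∑ r ∈ D.primeFactors, mu D r * lam p r * (g r - g p) =
        (A.mulVec fun r : S1 D => g r) p + mu D q * lam p q * g q := by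
    intro g p
    have hpm : (p : ℕ) ∈ D.primeFactors := (Finset.mem_filter.1 p.2).1
    have hpq : (p : ℕ) ≠ q := fun h => hqn (h ▸ p.2)
    have e1 : ∑ r ∈ D.primeFactors, mu D r * lam p r * (g r - g p) =
        ∑ r ∈ D.primeFactors.erase p, mu D r * lam p r * g r -
          (∑ r ∈ D.primeFactors.erase p, mu D r * lam p r) * g p := by
      rw [← Finset.add_sum_erase _ _ hpm, sub_self, mul_zero, zero_add, Finset.sum_mul,
        ← Finset.sum_sub_distrib]
      exact Finset.sum_congr rfl fun r _ => by ring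
    have e2 : D.primeFactors.erase p = insert q ((S1 D).erase p) := by
      rw [hins, Finset.erase_insert_of_ne hpq.symm]
    have e3 : (A.mulVec fun r : S1 D => g r) p =
        ∑ r ∈ (S1 D).erase p, mu D r * lam p r * g r -
          (∑ r ∈ D.primeFactors.erase p, mu D r * lam p r) * g p := by
      unfold Matrix.mulVec dotProduct
      have e4 : ∑ r : S1 D, A p r * g r = ∑ r ∈ S1 D, (if (p : ℕ) = r then
          -∑ r' ∈ D.primeFactors.erase p, mu D r' * lam p r' else mu D r * lam p r) * g r := by
        rw [← Finset.sum_coe_sort (S1 D)]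
        refine Finset.sum_congr rfl fun r _ => ?_
        rw [hA, Matrix.of_apply]
        simp only [Subtype.ext_iff]
      rw [e4, ← Finset.add_sum_erase _ _ p.2, if_pos rfl]
      have e5 : ∑ r ∈ (S1 D).erase p, (if (p : ℕ) = r then
          -∑ r' ∈ D.primeFactors.erase p, mu D r' * lam p r' else mu D r * lam p r) * g r =
          ∑ r ∈ (S1 D).erase p, mu D r * lam p r * g r :=
        Finset.sum_congr rfl fun r hr => by rw [if_neg (Finset.ne_of_mem_erase hr).symm]
      rw [e5]
      ring
    rw [e1, e3]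
    have hqn' : q ∉ (S1 D).erase p := fun h => hqn (Finset.mem_of_mem_erase h)
    have e6 : ∑ r ∈ D.primeFactors.erase p, mu D r * lam p r * g r =
        mu D q * lam p q * g q + ∑ r ∈ (S1 D).erase p, mu D r * lam p r * g r := by
      rw [e2, Finset.sum_insert hqn']
    rw [e6]
    ring
  -- the kernel vector
  have hker : ∀ a : S1 D → ZMod 3, (A + Matrix.diagonal fun p => - a p).det ≠ 0 →
      ∃ h : S1 D → ZMod 3, ∀ g : ℕ → ZMod 3,
        (∀ p ∈ D.primeFactors, p % 3 = 1 →
          ∑ r ∈ D.primeFactors, mu D r * lam p r * (g r - g p) = ext0 a p * g p) →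
        ∀ p : S1 D, g p = g q * h p := by
    intro a ha
    have hu : IsUnit (A + Matrix.diagonal fun p => - a p).det := Ne.isUnit ha
    set t : S1 D → ZMod 3 := fun p => mu D q * lam p q with ht
    refine ⟨(A + Matrix.diagonal fun p => - a p)⁻¹.mulVec (fun p => - t p), fun g hg => ?_⟩
    set h := (A + Matrix.diagonal fun p => - a p)⁻¹.mulVec (fun p => - t p) with hh
    have h1 : (A + Matrix.diagonal fun p => - a p).mulVec h = fun p => - t p := by
      rw [hh, Matrix.mulVec_mulVec, Matrix.mul_nonsing_inv _ hu, Matrix.one_mulVec]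
    have h2 : (fun p : S1 D => g p - g q * h p) = 0 := by
      apply Matrix.eq_zero_of_mulVec_eq_zero ha
      have e7 : (fun p : S1 D => g p - g q * h p) = (fun p : S1 D => g p) - g q • h := by
        funext p
        simp
      rw [e7, Matrix.mulVec_sub, Matrix.mulVec_smul, h1]
      funext p
      have hpm : (p : ℕ) ∈ D.primeFactors := (Finset.mem_filter.1 p.2).1
      have hp1 : (p : ℕ) % 3 = 1 := (Finset.mem_filter.1 p.2).2
      have h3 := hg p hpm hp1
      rw [hsys g p, ext0_of a p.2] at h3
      rw [Pi.sub_apply, Matrix.add_mulVec, Pi.add_apply, Matrix.mulVec_diagonal, Pi.smul_apply,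
        smul_eq_mul, Pi.zero_apply]
      rw [ht]
      simp only
      linear_combination h3
    intro p
    exact sub_eq_zero.1 (congrFun h2 p)
  choose h hh using hker
  -- the last coordinate
  set s : (a : S1 D → ZMod 3) → (A + Matrix.diagonal fun p => - a p).det ≠ 0 →
      (S1 D → ZMod 3) → ZMod 3 := fun a ha b => ∑ r : S1 D, mu D r * b r * h a ha r with hs
  set bq : (S1 D → ZMod 3) → ZMod 3 → D.primeFactors → ZMod 3 := fun b c r =>
    if hr : (r : ℕ) ∈ S1 D then b ⟨r, hr⟩ else c with hbq
  have hgood : ∀ (a : S1 D → ZMod 3) (ha : (A + Matrix.diagonal fun p => - a p).det ≠ 0)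
      (b : S1 D → ZMod 3) (c : ZMod 3), mu D q * c + s a ha b ≠ 0 → NP D (a, bq b c) := by
    intro a ha b c hc
    unfold NP NSg
    intro g h1 h2
    have h3 := hh a ha g h1
    have hbqq : ext0 (bq b c) q = c := by
      rw [ext0_of _ hqm, hbq]
      simp only
      rw [dif_neg hqn]
    have hbqr : ∀ r : S1 D, ext0 (bq b c) r = b r := by
      intro r
      rw [ext0_of _ (Finset.mem_filter.1 r.2).1, hbq]
      simp only
      rw [dif_pos r.2]
    have hsum : ∀ F : ℕ → ZMod 3, ∑ r ∈ D.primeFactors, F r = F q + ∑ r ∈ S1 D, F r := by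
      intro F
      rw [hins, Finset.sum_insert hqn]
    have h4 : ∑ r ∈ D.primeFactors, mu D r * ext0 (bq b c) r * g r =
        g q * (mu D q * c + s a ha b) := by
      rw [hsum, hbqq, hs]
      simp only
      rw [← Finset.sum_coe_sort (S1 D), mul_add, Finset.mul_sum]
      congr 1
      · ring
      · refine Finset.sum_congr rfl fun r _ => ?_
        rw [hbqr r, h3 r]
        ring
    have h2' : g q * (mu D q * c + s a ha b) = 0 := by
      rw [← h4]
      exact h2
    have hgq : g q = 0 := (mul_eq_zero.1 h2').resolve_right hc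
    intro p hp
    rw [hins] at hp
    rcases Finset.mem_insert.1 hp with rfl | hp
    · exact hgq
    · rw [h3 ⟨p, hp⟩, hgq, zero_mul]
  have hcard : 2 ^ ((S1 D).card + 1) * 3 ^ (S1 D).card ≤
      Nat.card {x : (S1 D → ZMod 3) × (D.primeFactors → ZMod 3) // NP D x} := by
    have h1 : 2 ^ (S1 D).card ≤
        Nat.card {a : S1 D → ZMod 3 // (A + Matrix.diagonal fun p => - a p).det ≠ 0} := by
      have h2 := card_diag_any A
      rw [Fintype.card_coe] at h2
      refine h2.trans (le_of_eq ?_)
      refine Nat.card_congr ((Equiv.neg (S1 D → ZMod 3)).subtypeEquiv fun u => ?_)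
      have e8 : (fun p => - (Equiv.neg (S1 D → ZMod 3)) u p) = u := by
        funext p
        simp
      rw [e8]
    have h2 : Nat.card ({a : S1 D → ZMod 3 // (A + Matrix.diagonal fun p => - a p).det ≠ 0} ×
        (S1 D → ZMod 3) × Bool) ≤
        Nat.card {x : (S1 D → ZMod 3) × (D.primeFactors → ZMod 3) // NP D x} := by
      have hcs : ∀ (z : ZMod 3) (b : Bool), mu D q * (mu D q * ((if b then 1 else 2) - z)) + z ≠ 0 := by
        intro z b
        have e9 : mu D q * (mu D q * ((if b then 1 else 2) - z)) + z = if b then 1 else 2 := by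
          linear_combination ((if b then 1 else 2) - z) * hmq2
        rw [e9]
        cases b <;> decide
      refine Nat.card_le_card_of_injective (fun y => ⟨(y.1.1, bq y.2.1
        (mu D q * ((if y.2.2 then 1 else 2) - s y.1.1 y.1.2 y.2.1))),
        hgood _ y.1.2 _ _ (hcs _ _)⟩) ?_
      rintro ⟨⟨a, ha⟩, b, c⟩ ⟨⟨a', ha'⟩, b', c'⟩ hy
      simp only [Subtype.mk.injEq, Prod.mk.injEq] at hy
      obtain ⟨rfl, hb⟩ := hy
      have hb1 : b = b' := by
        funext r
        have h5 := congrFun hb ⟨r, (Finset.mem_filter.1 r.2).1⟩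
        rw [hbq] at h5
        simp only at h5
        rw [dif_pos r.2, dif_pos r.2] at h5
        exact h5
      subst hb1
      have h6 := congrFun hb ⟨q, hqm⟩
      rw [hbq] at h6
      simp only at h6
      rw [dif_neg hqn, dif_neg hqn] at h6
      have h7 := mul_left_cancel₀ hmq h6
      have h8 : (if c then (1 : ZMod 3) else 2) = if c' then 1 else 2 := sub_left_injective h7
      have h9 : c = c' := by
        revert h8
        cases c <;> cases c' <;> decide
      rw [h9]
    rw [Nat.card_prod, Nat.card_prod, Nat.card_eq_fintype_card (α := Bool), Fintype.card_bool,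
      Nat.card_fun, Nat.card_zmod, Nat.card_eq_fintype_card (α := S1 D), Fintype.card_coe] at h2
    calc 2 ^ ((S1 D).card + 1) * 3 ^ (S1 D).card = 2 ^ (S1 D).card * (3 ^ (S1 D).card * 2) := by
          rw [pow_succ]; ring
      _ ≤ _ := Nat.mul_le_mul_right _ h1
      _ ≤ _ := h2
  unfold cD
  rw [le_div_iff₀ (by positivity)]
  have e10 : (2 / 3 : ℝ) ^ ((S1 D).card + 1) * 3 ^ (2 * (S1 D).card + 1) =
      ((2 ^ ((S1 D).card + 1) * 3 ^ (S1 D).card : ℕ) : ℝ) := by
    push_cast
    rw [div_pow]
    have : (3 : ℝ) ^ (2 * (S1 D).card + 1) = 3 ^ ((S1 D).card + 1) * 3 ^ (S1 D).card := by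
      rw [← pow_add]
      congr 1
      ring
    rw [this]
    field_simp
  rw [e10]
  exact_mod_cast hcard

end

end T2h16.TQ
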