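import Pool.Agent.Q283.TQ.Sym

/-!
# The linear system of `D ℓ ^ e`, `e = 1, 2`, in terms of the one of `D`
-/

set_option autoImplicit false

open scoped Classical

namespace T2h16.TQ

open Finset Pool.Agent.Y703.CX Q283.TQ
open Pool.Agent.Y703.CT (Cls NoSplit Base)
open Pool.Agent.Y692.QS
open Pool.Agent.Y715.T.Rec (cs)
open Pool.Agent.Y715.T.RecG (Pq)
open Pool.Agent.Y333.CX (t_LAM)

theorem pf_mul2 {D l e : ℕ} (hD : D ≠ 0) (hl : l.Prime) (he : e ≠ 0) :
    (D * l ^ e).primeFactors = insert l D.primeFactors := by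
  rw [Nat.primeFactors_mul hD (pow_ne_zero _ hl.ne_zero), Nat.primeFactors_prime_pow he hl,
    Finset.union_comm]
  rfl

theorem mu_mul2 {D l e r : ℕ} (hD : D ≠ 0) (hl : l.Prime) (hr : r ≠ l) :
    mu (D * l ^ e) r = mu D r := by
  unfold mu
  rw [Nat.factorization_mul hD (pow_ne_zero _ hl.ne_zero), Finsupp.add_apply,
    hl.factorization_pow, Finsupp.single_eq_of_ne hr, add_zero]

theorem mu_mul_self2 {D l e : ℕ} (hD : D ≠ 0) (hl : l.Prime) (hlD : ¬ l ∣ D) :
    mu (D * l ^ e) l = e := by
  unfold mu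
  rw [Nat.factorization_mul hD (pow_ne_zero _ hl.ne_zero), Finsupp.add_apply,
    hl.factorization_pow, Finsupp.single_eq_same, Nat.factorization_eq_zero_of_not_dvd hlD,
    zero_add]

theorem ker_mul2 {D l e : ℕ} (hD : D ≠ 0) (hl : l.Prime) (he : e ≠ 0)
    (hl1 : l % 3 = 1) (hlD : ¬ l ∣ D) :
    Ker (D * l ^ e) ↔ NSg D (fun p => e * lam p l) (fun r => lam l r) := by
  have hnm := not_mem_pf hlD
  have hsum : ∀ F : ℕ → ZMod 3, ∑ r ∈ D.primeFactors, mu (D * l ^ e) r * F r =
      ∑ r ∈ D.primeFactors, mu D r * F r := fun F => Finset.sum_congr rfl fun r hr => by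
    rw [mu_mul2 hD hl (fun h => hnm (h ▸ hr))]
  constructor
  · intro hK g h1 h2 p hp
    set c : ℕ → ZMod 3 := fun r => if r = l then 0 else g r with hc
    have hcl : c l = 0 := by simp [hc]
    have hcr : ∀ r ∈ D.primeFactors, c r = g r := by
      intro r hr
      have : r ≠ l := fun h => hnm (h ▸ hr)
      simp [hc, this]
    have h3 := hK c (by
      intro q hq hq1
      rw [pf_mul2 hD hl he] at hq ⊢
      rw [Finset.sum_insert hnm, mu_mul_self2 hD hl hlD]
      rcases Finset.mem_insert.1 hq with rfl | hq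
      · rw [sub_self, mul_zero, zero_add]
        have e : ∑ r ∈ D.primeFactors, mu (D * q ^ e) r * lam q r * (c r - c q) =
            ∑ r ∈ D.primeFactors, mu D r * lam q r * g r := by
          have := hsum fun r => lam q r * (c r - c q)
          simp only [← mul_assoc] at this
          rw [this]
          refine Finset.sum_congr rfl fun r hr => ?_
          rw [hcl, hcr r hr, sub_zero]
        rw [e]
        exact h2
      · have e : ∑ r ∈ D.primeFactors, mu (D * l ^ e) r * lam q r * (c r - c q) =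
            ∑ r ∈ D.primeFactors, mu D r * lam q r * (g r - g q) := by
          have := hsum fun r => lam q r * (c r - c q)
          simp only [← mul_assoc] at this
          rw [this]
          refine Finset.sum_congr rfl fun r hr => ?_
          rw [hcr q hq, hcr r hr]
        rw [e, h1 q hq hq1, hcl, hcr q hq]
        ring)
    have h4 := h3 p (by rw [pf_mul2 hD hl he]; exact Finset.mem_insert_of_mem hp) l
      (by rw [pf_mul2 hD hl he]; exact Finset.mem_insert_self _ _)
    rw [hcl, hcr p hp] at h4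
    exact h4
  · intro hN c hc
    have h1 : ∀ p ∈ D.primeFactors, c p - c l = 0 := by
      refine hN (fun r => c r - c l) (fun p hp hp1 => ?_) ?_
      · have h2 := hc p (by rw [pf_mul2 hD hl he]; exact Finset.mem_insert_of_mem hp) hp1
        rw [pf_mul2 hD hl he, Finset.sum_insert hnm, mu_mul_self2 hD hl hlD] at h2
        have e : ∑ r ∈ D.primeFactors, mu (D * l ^ e) r * lam p r * (c r - c p) =
            ∑ r ∈ D.primeFactors, mu D r * lam p r * (c r - c l - (c p - c l)) := by
          have := hsum fun r => lam p r * (c r - c p)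
          simp only [← mul_assoc] at this
          rw [this]
          refine Finset.sum_congr rfl fun r _ => ?_
          ring
        rw [e] at h2
        beta_reduce
        linear_combination h2
      · have h2 := hc l (by rw [pf_mul2 hD hl he]; exact Finset.mem_insert_self _ _) hl1
        rw [pf_mul2 hD hl he, Finset.sum_insert hnm, sub_self, mul_zero, zero_add] at h2
        rw [← h2]
        have := hsum fun r => lam l r * (c r - c l)
        simp only [← mul_assoc] at this
        exact this.symm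
    intro p hp q hq
    rw [pf_mul2 hD hl he] at hp hq
    have h5 : ∀ r ∈ insert l D.primeFactors, c r = c l := by
      intro r hr
      rcases Finset.mem_insert.1 hr with rfl | hr
      · rfl
      · exact sub_eq_zero.1 (h1 r hr)
    rw [h5 p hp, h5 q hq]

theorem bs_mul2 {D l e : ℕ} (hD : Bs D) (hl : l.Prime) (hl1 : l % 3 = 1) (hlD : ¬ l ∣ D)
    (he2 : e ≤ 2) : Bs (D * l ^ e) := by
  obtain ⟨⟨h0, h3, hc⟩, q, hq, hq2, hqD, hall⟩ := hD
  refine ⟨⟨mul_ne_zero h0 (pow_ne_zero _ hl.ne_zero), ?_, ?_⟩, q, hq, hq2, hqD.mul_right _, ?_⟩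
  · intro h
    rcases (Nat.Prime.dvd_mul Nat.prime_three).1 h with h | h
    · exact h3 h
    · have := (Nat.prime_dvd_prime_iff_eq Nat.prime_three hl).1 (Nat.prime_three.dvd_of_dvd_pow h)
      omega
  · intro p hp h
    by_cases hpl : p = l
    · subst hpl
      have h1 : p ^ 3 ∣ p ^ e := by
        have hcop : Nat.Coprime (p ^ 3) D := ((Nat.Prime.coprime_iff_not_dvd hp).2 hlD).pow_left 3
        exact hcop.dvd_of_dvd_mul_left h
      have h2 := (Nat.pow_dvd_pow_iff_le_right hp.one_lt).1 h1
      omega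
    · have hcop : Nat.Coprime (p ^ 3) (l ^ e) :=
        (((Nat.coprime_primes hp hl).2 hpl).pow_left 3).pow_right e
      exact hc p hp (hcop.dvd_of_dvd_mul_right h)
  · intro p hp hpd hpq
    rcases hp.dvd_mul.1 hpd with h | h
    · exact hall p hp h hpq
    · rw [(Nat.prime_dvd_prime_iff_eq hp hl).1 (hp.dvd_of_dvd_pow h)]
      exact hl1

/-- the criterion in terms of a primary prime `π` of norm `ℓ` -/
theorem crit2 {D l e : ℕ} (hD : Bs D) (hl : l.Prime) (hl1 : l % 3 = 1) (hlD : ¬ l ∣ D)
    (he : e ≠ 0) (he2 : e ≤ 2) {π : Ei} (hπ : Pq π) (hn : nr π = l) :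
    NoSplit (D * l ^ e) ↔ NSg D (fun p => e * aa π p) (bb π) := by
  rw [nosplit_iff t_LAM (bs_mul2 hD hl hl1 hlD he2), ker_mul2 hD.ne_zero hl he hl1 hlD]
  have hne : ∀ r ∈ D.primeFactors, r ≠ l := by
    rintro r hr rfl
    exact not_mem_pf hlD hr
  have hpr : ∀ r ∈ D.primeFactors, r.Prime := fun r hr => Nat.prime_of_mem_primeFactors hr
  have ha : ∀ p ∈ D.primeFactors, p % 3 = 1 → (e : ZMod 3) * lam p l = e * aa π p :=
    fun p hp hp1 => by rw [lam_aa hπ hn hl (hpr p hp) hp1 (hne p hp)]
  rcases lam_bb hπ hn hl hl1 with h | h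
  · have hb : ∀ r ∈ D.primeFactors, lam l r = bb π r := fun r hr =>
      h r (hpr r hr) (hD.case r hr) (hne r hr)
    exact ⟨fun hN => hN.congr ha hb, fun hN => hN.congr (fun p hp hp1 => (ha p hp hp1).symm)
      fun r hr => (hb r hr).symm⟩
  · have hb : ∀ r ∈ D.primeFactors, lam l r = - bb π r := fun r hr =>
      h r (hpr r hr) (hD.case r hr) (hne r hr)
    constructor
    · intro hN
      have h1 := hN.neg
      exact h1.congr ha fun r hr => by rw [hb r hr, neg_neg]
    · intro hN
      exact hN.neg.congr (fun p hp hp1 => (ha p hp hp1).symm) fun r hr => (hb r hr).symm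

end T2h16.TQ
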